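import Pool.Agent.Results.MP_18a8a6_lc.AlmostAllPrimes
import Pool.Agent.R559.NP.Near3

/-!
# Primitive roots modulo EVERY prime near almost all points of a metric space

There is a sequence of polynomial-time computable lists such that for every map `φ` from the primes
to a metric space, for instance to the `l`-adic or the profinite integers, and for all points `ξ`
outside a set of Hausdorff dimension zero the following holds: for every `τ > 0` one of the lists
works for EVERY large prime `p` with `dist (φ p) ξ ≤ κ p ^ (-τ)`, for instance for every large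
prime `p` whose last digits in base `l` are those of the `l`-adic integer `ξ`, as soon as this is so
for the proportion `τ` of the digits.

Proof. For every `ε > 0` some list fails for at most `x ^ ε` primes up to `x` (starting theorem
`AlmostAllPrimes`), and thin increasing families of sets are finite near all points outside a set of
dimension zero (library, `R559/NP`).
-/

set_option autoImplicit false

namespace Pool.Agent.Results.MP_18a8a6_lc.PrimesNearAPoint

open Finset Filter Topology
open AlmostAllPrimes (PolyTimeList IsPrimRoot)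

open Classical in
/-- all but a fraction `(size p) ^ (-B)` of the entries of the list `F p` are primitive roots modulo `p` -/
def MostlyPrimRoots (F : ℕ → List ℕ) (B p : ℕ) : Prop :=
  p.size ^ B * #{i ∈ range (F p).length | ¬ IsPrimRoot p ((F p).getD i 0)} ≤ (F p).length

/-- **Primitive roots modulo every prime near almost all points.** There are polynomial-time
computable lists `F j B p`, `j, B = 0, 1, …`, of `(size p) ^ C` numbers (`C` depends on `j` and `B`),
with the following property. Let `φ` be any map from `ℕ` to a metric space `M`. There is `E ⊆ M` of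
Hausdorff dimension zero such that for all `ξ ∈ M` outside `E` and all `τ > 0` there is `j` such that
for all `B` and `κ`, for all but finitely many of the primes `p` with `dist (φ p) ξ ≤ κ p ^ (-τ)`,
all but a fraction `(size p) ^ (-B)` of the entries of `F j B p` are primitive roots modulo `p`. In
particular, for every prime `l` and all `l`-adic integers `ξ` outside a set of Hausdorff dimension
zero, for every real `c` there is `j` such that for all `B` and all large `k`, EVERY prime
`p ≤ l ^ (c k)` with `p = ξ` modulo `l ^ k` has this property, if it is large. -/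
theorem result :
    ∃ F : ℕ → ℕ → ℕ → List ℕ, (∀ j B : ℕ, PolyTimeList (F j B) ∧
        ∃ C : ℕ, ∀ p : ℕ, (F j B p).length = p.size ^ C) ∧
      (∀ (M : Type) [MetricSpace M] (φ : ℕ → M), ∃ E : Set M, dimH E = 0 ∧
        ∀ ξ : M, ξ ∉ E → ∀ τ : ℝ, 0 < τ → ∃ j : ℕ, ∀ (B : ℕ) (κ : ℝ),
          {p : ℕ | p.Prime ∧ dist (φ p) ξ ≤ κ * (p : ℝ) ^ (-τ) ∧
            ¬ MostlyPrimRoots (F j B) B p}.Finite) ∧
      ∀ (l : ℕ) [Fact l.Prime], ∃ E : Set ℤ_[l], dimH E = 0 ∧
        ∀ ξ : ℤ_[l], ξ ∉ E → ∀ c : ℝ, 0 < c → ∃ j : ℕ, ∀ B : ℕ, ∃ p₀ : ℕ,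
          ∀ k p : ℕ, p₀ ≤ p → p.Prime → (p : ℝ) ≤ (l : ℝ) ^ (c * k) →
            (p : ℤ_[l]) - ξ ∈ Ideal.span {(l : ℤ_[l]) ^ k} → MostlyPrimRoots (F j B) B p := by
  classical
  have H := fun j B : ℕ => AlmostAllPrimes.result (1 / ((j : ℝ) + 1)) (by positivity) B
  choose C F hF hlen x₀ hx₀ using H
  have main : ∀ (M : Type) [MetricSpace M] (φ : ℕ → M), ∃ E : Set M, dimH E = 0 ∧
      ∀ ξ : M, ξ ∉ E → ∀ τ : ℝ, 0 < τ → ∃ j : ℕ, ∀ (B : ℕ) (κ : ℝ),
        {p : ℕ | p.Prime ∧ dist (φ p) ξ ≤ κ * (p : ℝ) ^ (-τ) ∧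
          ¬ MostlyPrimRoots (F j B) B p}.Finite := by
    intro M _ φ
    obtain ⟨E, hE, h⟩ := Pool.Agent.R559.NP.near_zero_lvl (Z := ℕ) (X := M) (Y := ℕ)
      (F := fun j B T => {p | p ≤ T ∧ p.Prime ∧ ¬ MostlyPrimRoots (F j B) B p})
      (fun j B t t' htt p hp => ⟨hp.1.trans htt, hp.2⟩)
      (s := fun j => 1 / ((j : ℝ) + 1)) (fun j => by positivity)
      tendsto_one_div_add_atTop_nhds_zero_nat
      (by
        intro j B
        refine ⟨(x₀ j B : ℝ) + 2, fun T hT => ?_⟩
        have hT1 : (1 : ℝ) ≤ T := by exact_mod_cast hT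
        have hTp : (1 : ℝ) ≤ (T : ℝ) ^ (1 / ((j : ℝ) + 1)) := Real.one_le_rpow hT1 (by positivity)
        have e : {p | p ≤ T ∧ p.Prime ∧ ¬ MostlyPrimRoots (F j B) B p} =
            (((range (T + 1)).filter (fun p => p.Prime ∧ ¬ p.size ^ B *
              #{i ∈ range (F j B p).length | ¬ IsPrimRoot p ((F j B p).getD i 0)} ≤
                (F j B p).length) : Finset ℕ) : Set ℕ) := by
          ext p
          simp only [Set.mem_setOf_eq, mem_coe, mem_filter, mem_range, Nat.lt_succ_iff]
          exact Iff.rfl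
        rw [e]
        refine ⟨Finset.finite_toSet _, ?_⟩
        rw [Set.ncard_coe_finset]
        rcases le_total (x₀ j B) T with hx | hx
        · have h1 := hx₀ j B T hx
          have h2 : (0 : ℝ) ≤ (x₀ j B : ℝ) := Nat.cast_nonneg _
          nlinarith
        · have h1 : (((range (T + 1)).filter (fun p => p.Prime ∧ ¬ p.size ^ B *
              #{i ∈ range (F j B p).length | ¬ IsPrimRoot p ((F j B p).getD i 0)} ≤
                (F j B p).length)).card : ℝ) ≤ (T : ℝ) + 1 := by
            have h2 := card_le_card (filter_subset (fun p => p.Prime ∧ ¬ p.size ^ B *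
              #{i ∈ range (F j B p).length | ¬ IsPrimRoot p ((F j B p).getD i 0)} ≤
                (F j B p).length) (range (T + 1)))
            rw [card_range] at h2
            exact_mod_cast h2
          have h3 : (T : ℝ) ≤ x₀ j B := by exact_mod_cast hx
          have h2 : (0 : ℝ) ≤ (x₀ j B : ℝ) := Nat.cast_nonneg _
          nlinarith)
      (fun _ p => φ p)
    refine ⟨E, hE, fun ξ hξ τ hτ => ?_⟩
    obtain ⟨j, hj⟩ := h ξ hξ τ hτ
    refine ⟨j, fun B κ => (hj B κ).subset ?_⟩
    rintro p ⟨h1, h2, h3⟩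
    exact ⟨p, h1.one_lt.le, ⟨le_rfl, h1, h3⟩, h2⟩
  refine ⟨F, fun j B => ⟨hF j B, C j B, hlen j B⟩, main, ?_⟩
  intro l hl
  obtain ⟨E, hE, h⟩ := main ℤ_[l] (fun p => (p : ℤ_[l]))
  refine ⟨E, hE, fun ξ hξ c hc => ?_⟩
  obtain ⟨j, hj⟩ := h ξ hξ (1 / c) (by positivity)
  refine ⟨j, fun B => ?_⟩
  have hfin := hj B 1
  refine ⟨hfin.toFinset.sup id + 1, fun k p hp hpp hpk hdvd => ?_⟩
  by_contra hcon
  have hmem : p ∈ hfin.toFinset := by
    rw [Set.Finite.mem_toFinset]
    refine ⟨hpp, ?_, hcon⟩
    have h1 : ‖(p : ℤ_[l]) - ξ‖ ≤ (l : ℝ) ^ (-(k : ℤ)) :=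
      (PadicInt.norm_le_pow_iff_mem_span_pow _ k).2 hdvd
    rw [dist_eq_norm, one_mul]
    refine h1.trans ?_
    have hl1 : (1 : ℝ) < l := by exact_mod_cast hl.out.one_lt
    have hp0 : (0 : ℝ) < p := by exact_mod_cast hpp.pos
    have h2 : (p : ℝ) ^ (1 / c) ≤ (l : ℝ) ^ (k : ℝ) := by
      calc (p : ℝ) ^ (1 / c) ≤ ((l : ℝ) ^ (c * k)) ^ (1 / c) :=
            Real.rpow_le_rpow hp0.le hpk (by positivity)
        _ = (l : ℝ) ^ (k : ℝ) := by
            rw [← Real.rpow_mul (by linarith)]
            congr 1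
            field_simp
    rw [Real.rpow_neg hp0.le, zpow_neg, zpow_natCast, ← Real.rpow_natCast]
    exact inv_anti₀ (by positivity) h2
  have h3 : p ≤ hfin.toFinset.sup id := Finset.le_sup (f := id) hmem
  omega

end Pool.Agent.Results.MP_18a8a6_lc.PrimesNearAPoint
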