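import Pool.Agent.J4H77.PC.Uni
import Pool.Agent.Results.MP_18a8a6_lc.AlmostAllPrimes

/-!
# Primitive roots for ALL primes near random sums

Let `x 0, ..., x (k - 1)` be independent random integers with `|x j| ≤ B b ^ j`, of which only a positive
proportion of the scales `j` is known not to be concentrated on one short interval (the other `x j` are
arbitrary, for example constants), and let `Y` be an arbitrary set of at most `b ^ (κ k)` integers of
absolute value at most `B b ^ k`. With a probability of at least `1 - b ^ (-κ k)`, for ALL the primes `q`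
at a distance of at most `b ^ (κ k)` from one of the integers `y + x 0 + ... + x (k - 1)`, `y ∈ Y`, nearly
all the entries of an explicit list `F q`, computable in polynomial time, are primitive roots modulo `q`.
(For example `x j = b ^ j d j` with independent digits `d j`, of which a proportion `δ` is random with at
least two values, and all the others are prescribed.)

Proof. There are at most `x ^ θ` exceptional primes up to `x`, for every `θ > 0` (starting file
`AlmostAllPrimes`). A sum of independent random integers hits an interval of length `2 b ^ (κ k)` with a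
probability of at most `exp (- c k)`: choose a set of separated scales among the given ones, condition on
all the other variables, and bound the conditional probabilities from the largest scale to the smallest
one. The union bound over the exceptional primes and over `Y` gives the result.
-/

set_option autoImplicit false

namespace Pool.Agent.Results.MP_18a8a6_lc.RandomSums

open Finset

/-- `F` is computable in polynomial time: some function on bit strings computed by a Turing machine
(Mathlib's `TM2ComputableInPolyTime`) in polynomially many steps sends the binary digits of `p` to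
the code of the list `F p`. -/
def PolyTimeList (F : ℕ → List ℕ) : Prop :=
  ∃ f : List Bool → List Bool, NPC.PolyTime f ∧ ∀ p : ℕ, f (Nat.bits p) = NPC.bits (F p)

/-- `g` is a primitive root modulo `p` -/
def IsPrimRoot (p g : ℕ) : Prop := orderOf (g : ZMod p) = p - 1

open Classical in
/-- all but a fraction `(size p) ^ (-A)` of the entries of the list `F p` are primitive roots modulo `p` -/
def MostlyPrimRoots (F : ℕ → List ℕ) (A p : ℕ) : Prop :=
  p.size ^ A * #{i ∈ range (F p).length | ¬ IsPrimRoot p ((F p).getD i 0)} ≤ (F p).length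

/-- some prime `q` at a distance of at most `R` from `v` is an exception -/
def BadNear (F : ℕ → List ℕ) (A : ℕ) (R : ℝ) (v : ℤ) : Prop :=
  ∃ q : ℕ, q.Prime ∧ |(q : ℝ) - v| ≤ R ∧ ¬ MostlyPrimRoots F A q

open Classical in
/-- The probability of the event `E` if `x 0, ..., x (k - 1)` are independent random integers, where `x j` takes
its values in the finite set `s j`, and the value `x` with the probability `p j x`. -/
noncomputable def Prob (k : ℕ) (s : ℕ → Finset ℤ) (p : ℕ → ℤ → ℝ) (E : (Fin k → ℤ) → Prop) : ℝ :=
  ∑ x ∈ Fintype.piFinset (fun j : Fin k => s j), if E x then ∏ j : Fin k, p j (x j) else 0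

open Classical in
/-- The law of `x j`, `j < k`, is a probability on integers of absolute value at most `B b ^ j`, and, for
`j ∈ J`, no interval `[y, y + b ^ j / B]` has a probability larger than `1 - η`. -/
def Law (b B k : ℕ) (η : ℝ) (J : Finset ℕ) (s : ℕ → Finset ℤ) (p : ℕ → ℤ → ℝ) : Prop :=
  (∀ j < k, (∀ x ∈ s j, 0 ≤ p j x ∧ |x| ≤ (B : ℤ) * (b : ℤ) ^ j) ∧ ∑ x ∈ s j, p j x = 1) ∧
  ∀ j ∈ J, ∀ y : ℤ, ∑ x ∈ (s j).filter (fun x => y ≤ x ∧ (B : ℤ) * (x - y) ≤ (b : ℤ) ^ j), p j x ≤
    1 - η

section proof

open Pool.Agent.J4H77.PC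

theorem prob_eq (k : ℕ) (s : ℕ → Finset ℤ) (p : ℕ → ℤ → ℝ) (E : (Fin k → ℤ) → Prop) :
    Prob k s p E = Ex (fun j : Fin k => s j) (fun j : Fin k => p j) fun x => ch (E x) := by
  unfold Prob Ex ch
  refine sum_congr rfl fun x _ => ?_
  beta_reduce
  by_cases h : E x
  · rw [if_pos h, if_pos h, mul_one]
  · rw [if_neg h, if_neg h, mul_zero]

end proof

/-- Let `b ≥ 2`, `B ≥ 1`, `δ > 0` and `η > 0`. There is `κ > 0` such that for every `A` there is a list
`F q` of `(size q) ^ C` numbers, computable from `q` in polynomial time, such that the following holds for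
all large `k` and all sets `J` of at least `δ k` scales `j < k`. Let `x 0, ..., x (k - 1)` be independent
random integers with `|x j| ≤ B b ^ j`, such that for `j ∈ J` no interval of the length `b ^ j / B` has a
probability larger than `1 - η`, and let `Y` be a set of at most `b ^ (κ k)` integers of absolute value at
most `B b ^ k`. With a probability of at least `1 - b ^ (- κ k)`, for ALL the primes `q` at a distance of
at most `b ^ (κ k)` from one of the integers `y + x 0 + ... + x (k - 1)`, `y ∈ Y`, all but a fraction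
`(size q) ^ (-A)` of the entries of `F q` are primitive roots modulo `q`. -/
theorem result (b B : ℕ) (hb : 2 ≤ b) (hB : 1 ≤ B) (δ η : ℝ) (hδ : 0 < δ) (hη : 0 < η) :
    ∃ κ : ℝ, 0 < κ ∧ ∀ A : ℕ, ∃ (C : ℕ) (F : ℕ → List ℕ), PolyTimeList F ∧
      (∀ q : ℕ, (F q).length = q.size ^ C) ∧
      ∃ k₀ : ℕ, ∀ k : ℕ, k₀ ≤ k → ∀ J : Finset ℕ, (∀ j ∈ J, j < k) → δ * k ≤ J.card →
        ∀ (s : ℕ → Finset ℤ) (p : ℕ → ℤ → ℝ), Law b B k η J s p →
          ∀ Y : Finset ℤ, (Y.card : ℝ) ≤ (b : ℝ) ^ (κ * k) →
            (∀ y ∈ Y, |y| ≤ (B : ℤ) * (b : ℤ) ^ k) →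
            Prob k s p (fun x => ∃ y ∈ Y, BadNear F A ((b : ℝ) ^ (κ * k)) (y + ∑ j, x j)) ≤
              (b : ℝ) ^ (-(κ * k)) := by
  classical
  have hbr : (2 : ℝ) ≤ b := by exact_mod_cast hb
  obtain ⟨κ, θ, hκ, hθ, h1⟩ := Pool.Agent.J4H77.PC.few b B hb hB δ η hδ hη
  refine ⟨κ, hκ, fun A => ?_⟩
  obtain ⟨C, F, hF, hlen, x₀, hx₀⟩ := AlmostAllPrimes.result θ hθ A
  refine ⟨C, F, hF, hlen, ?_⟩
  obtain ⟨k₁, hk₁⟩ := h1 (fun q => q.Prime ∧ ¬ MostlyPrimRoots F A q) x₀ (fun x hx => by
    have h3 := hx₀ x hx
    have h4 : ((range (x + 1)).filter fun q => q.Prime ∧ ¬ MostlyPrimRoots F A q).card =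
        #{p ∈ range (x + 1) | p.Prime ∧ ¬ p.size ^ A *
          #{i ∈ range (F p).length | ¬ AlmostAllPrimes.IsPrimRoot p ((F p).getD i 0)} ≤
          (F p).length} := by
      refine congrArg Finset.card (Finset.ext fun q => ?_)
      simp only [mem_filter]
      exact Iff.rfl
    rw [← h4] at h3
    convert h3)
  refine ⟨k₁, fun k hk J hJ hJc s p hlaw Y hY1 hY2 => ?_⟩
  have h3 := hk₁ k hk J hJ hJc Y hY1 hY2 s p hlaw.1 (fun j hj y => by
    have h4 := hlaw.2 j hj y
    rw [sum_filter] at h4
    exact h4)
  rw [prob_eq]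
  refine le_trans (Pool.Agent.J4H77.PC.Ex_mono (s := fun j : Fin k => s j)
    (p := fun j : Fin k => p j) (fun j a ha => ((hlaw.1 j j.2).1 a ha).1) fun x _ =>
      Pool.Agent.J4H77.PC.ch_mono ?_) h3
  rintro ⟨y, hy, q, hq, hd, hn⟩
  exact ⟨y, hy, q, ⟨hq, hn⟩, hd⟩

end Pool.Agent.Results.MP_18a8a6_lc.RandomSums
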