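import Pool.Agent.J4H65.PT.Main

/-!
# Deterministic construction of primitive roots modulo EVERY prime in time `p ^ (1 / (4 √e) + ε)`

A deterministic algorithm is given by a function `M` computable in polynomial time (by a Turing
machine), which is applied to the memory, a list of numbers, round after round, until it says that
the memory is the output. The number of rounds is the running time, up to factors polynomial in
`log p`, since the memory never has more than `(log₂ p) ^ 4` bits, up to rounding. The input is the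
prime number `p` only, and the factorisation of `p - 1` is not given. The output is a short list, of
`(log₂ p) ^ C` numbers, all of which but a fraction `(log₂ p) ^ (-B)` are primitive roots modulo
`p`. (So `O(log log p)` random bits choose a primitive root, with error probability at most
`(log₂ p) ^ (-B)`.)

For every `ε` in `(0, 1]` and every `B` there is one algorithm of this kind which

1. needs at most `p ^ (1 / (4 √e) + ε)` rounds for every large prime `p` (`1 / (4 √e) = 0.1516...`);
2. needs at most `p ^ ε` rounds for every large prime `p` such that, for each prime `l ≤ L` which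
   divides `p - 1`, the number `-1` or some number below `p ^ (ε / 2)` is an `l`-th power nonresidue
   modulo `p`; here `L` depends on `ε` only;
3. needs at most `p ^ ε` rounds for every large prime `p` which is not `1` modulo `8` and such that
   `p - 1` has no odd prime factor `≤ L`;
4. needs at most `p ^ ε` rounds for all primes with at most `K` exceptions in every interval
   `(Q, 2 Q]`, where `K` depends on `ε` and `B` only.

The factorisation of `p - 1` takes more time than that: the best deterministic algorithms need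
`p ^ (1 / 5 + o(1))`. The algorithm finds only the prime factors `l < p ^ (ε / 8)` of `p - 1`, and
for each of them it searches an `l`-th power nonresidue among `-1, 2, 3, …`. By the starting theorem
`NonresiduesSuffice` of this problem these nonresidues and the numbers below a power of `log p`
yield the list. The search is short by Burgess' bound (1), since a positive proportion of the
integers up to `p` has no prime factor greater than `p ^ δ` (2), and by the large sieve (4); these
facts are in the starting library.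
-/

set_option autoImplicit false

namespace Pool.Agent.Results.MP_18a8a6_lc.TimeForEveryPrime

open Pool.Agent.J4H65.PT

theorem result (ε : ℝ) (hε : 0 < ε) (hε1 : ε ≤ 1) : ∃ L : ℕ, ∀ B : ℕ,
    ∃ (M : List ℕ → Bool × List ℕ) (C K p₀ : ℕ), PolyTimeRound M ∧
      (∀ p : ℕ, p₀ ≤ p → p.Prime →
        Finds M 4 B C ⌊(p : ℝ) ^ (1 / (4 * Real.exp (1 / 2)) + ε)⌋₊ p) ∧
      (∀ p : ℕ, p₀ ≤ p → p.Prime → (∀ l : ℕ, l.Prime → l ≤ L → l ∣ p - 1 → ∃ x : ℕ, 1 ≤ x ∧
        (x = p - 1 ∨ (x : ℝ) ≤ (p : ℝ) ^ (ε / 2)) ∧ (x : ZMod p) ^ ((p - 1) / l) ≠ 1) →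
        Finds M 4 B C ⌊(p : ℝ) ^ ε⌋₊ p) ∧
      (∀ p : ℕ, p₀ ≤ p → p.Prime → p % 8 ≠ 1 →
        (∀ l : ℕ, l.Prime → 3 ≤ l → l ≤ L → ¬ l ∣ p - 1) → Finds M 4 B C ⌊(p : ℝ) ^ ε⌋₊ p) ∧
      ∀ Q : ℕ, Set.ncard {p : ℕ | p.Prime ∧ Q < p ∧ p ≤ 2 * Q ∧
        ¬ Finds M 4 B C ⌊(p : ℝ) ^ ε⌋₊ p} ≤ K := by
  obtain ⟨L, hmain⟩ := main ε hε hε1
  obtain ⟨p₁, hp₁⟩ := size_le_rpow (ε / 2) (by positivity)
  refine ⟨L, fun B => ?_⟩
  obtain ⟨M, C, K, p₀, h0, h1, h2, h3⟩ := hmain B
  have hmax : ∀ p, max (max p₀ p₁) 3 ≤ p → p₀ ≤ p := fun p hp =>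
    (le_max_left _ _).trans ((le_max_left _ _).trans hp)
  refine ⟨M, C, K, max (max p₀ p₁) 3, h0, fun p hp => h1 p (hmax p hp),
    fun p hp => h2 p (hmax p hp), fun p hp hpp h8 hodd => ?_, h3⟩
  refine h2 p (hmax p hp) hpp fun l hl hlL hd => ?_
  have hp3 : 3 ≤ p := (le_max_right _ _).trans hp
  have hl2 : l = 2 := by
    by_contra hne
    exact hodd l hl (by have := hl.two_le; omega) hlL hd
  subst hl2
  haveI : Fact p.Prime := ⟨hpp⟩
  have h5 : (2 : ℝ) ≤ (p : ℝ) ^ (ε / 2) := by
    have := (hp₁ p ((le_max_right _ _).trans ((le_max_left _ _).trans hp))).2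
    linarith
  have hodd2 : p % 2 = 1 := by omega
  have hdiv : (p - 1) / 2 = p / 2 := by omega
  rw [hdiv]
  by_cases h4 : p % 4 = 3
  · refine ⟨p - 1, by omega, Or.inl rfl, ?_⟩
    have h6 : ((p - 1 : ℕ) : ZMod p) = -1 := by
      rw [Nat.cast_sub (by omega), ZMod.natCast_self]
      simp
    have h7 : (-1 : ZMod p) ≠ 0 := neg_ne_zero.2 one_ne_zero
    rw [h6, Ne, ← ZMod.euler_criterion p h7, ZMod.exists_sq_eq_neg_one_iff]
    simpa using h4
  · refine ⟨2, by norm_num, Or.inr (by exact_mod_cast h5), ?_⟩
    have h6 : ((2 : ℕ) : ZMod p) = 2 := by norm_num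
    have h7 : (2 : ZMod p) ≠ 0 := by
      rw [← h6, Ne, ZMod.natCast_eq_zero_iff]
      intro h8
      have := Nat.le_of_dvd (by norm_num) h8
      omega
    rw [h6, Ne, ← ZMod.euler_criterion p h7, ZMod.exists_sq_eq_two_iff (by omega)]
    omega

end Pool.Agent.Results.MP_18a8a6_lc.TimeForEveryPrime
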